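import Mathlib

namespace Pool.Agent.Lib.MP_039f74_co.Variants.Disproof

open Finset

/-- The witness group `C_2^j × C_2^k × C_(2d)`. -/
abbrev W (j k d : ℕ) : Type := (Fin j → ZMod 2) × (Fin k → ZMod 2) × ZMod (2 * d)

lemma rank_ge (j k d : ℕ) [NeZero (2 * d)] : j + k + 1 ≤ AddGroup.rank (W j k d) := by
  let f : W j k d →+ (Fin j → ZMod 2) × (Fin k → ZMod 2) × ZMod 2 :=
    AddMonoidHom.prodMap (AddMonoidHom.id _) (AddMonoidHom.prodMap (AddMonoidHom.id _)
      (ZMod.castHom (dvd_mul_right 2 d) (ZMod 2)).toAddMonoidHom)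
  have hf : Function.Surjective f := by
    rintro ⟨x, y, z⟩
    obtain ⟨w, hw⟩ := ZMod.castHom_surjective (n := 2 * d) (dvd_mul_right 2 d) z
    exact ⟨(x, y, w), by simp [f, ← hw]⟩
  refine le_trans ?_ (AddGroup.rank_le_of_surjective f hf)
  have h2 : ∀ g : (Fin j → ZMod 2) × (Fin k → ZMod 2) × ZMod 2, 2 • g = 0 := by
    rintro ⟨x, y, z⟩
    have key : ∀ a : ZMod 2, 2 • a = 0 := by decide
    refine Prod.ext (funext fun i => key _) (Prod.ext (funext fun i => key _) (key _))
  have h3 := card_dvd_exponent_nsmul_rank' _ h2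
  have h4 : Nat.card ((Fin j → ZMod 2) × (Fin k → ZMod 2) × ZMod 2) = 2 ^ (j + k + 1) := by
    simp [Nat.card_eq_fintype_card, pow_add, mul_assoc]
  rw [h4] at h3
  exact (Nat.pow_dvd_pow_iff_le_right (by norm_num)).mp h3

/-- The generating set: `(0,0,2)`, `(0,0,1)`, the `(e_i,0,1)` and the `(0,e_i,1)`. -/
def gens (j k d : ℕ) : Finset (W j k d) :=
  ({(0, 0, 2), (0, 0, 1)} : Finset (W j k d)) ∪
    (univ.image fun i : Fin j => ((Pi.single i 1, 0, 1) : W j k d)) ∪
    (univ.image fun i : Fin k => ((0, Pi.single i 1, 1) : W j k d))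

lemma closure_gens (j k d : ℕ) [NeZero (2 * d)] :
    AddSubgroup.closure ((gens j k d : Finset (W j k d)) : Set (W j k d)) = ⊤ := by
  set H := AddSubgroup.closure ((gens j k d : Finset (W j k d)) : Set (W j k d)) with hH
  have h1 : ((0, 0, 1) : W j k d) ∈ H := AddSubgroup.subset_closure (by simp [gens])
  have hj : ∀ i : Fin j, ((Pi.single i 1, 0, 0) : W j k d) ∈ H := by
    intro i
    have h : ((Pi.single i 1, 0, 1) : W j k d) ∈ H := AddSubgroup.subset_closure (by simp [gens])
    have e : ((Pi.single i 1, 0, 1) : W j k d) - (0, 0, 1) = (Pi.single i 1, 0, 0) := by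
      simp [Prod.ext_iff]
    exact e ▸ H.sub_mem h h1
  have hk : ∀ i : Fin k, ((0, Pi.single i 1, 0) : W j k d) ∈ H := by
    intro i
    have h : ((0, Pi.single i 1, 1) : W j k d) ∈ H := AddSubgroup.subset_closure (by simp [gens])
    simpa using H.sub_mem h h1
  have hz : ∀ z : ZMod (2 * d), ((0, 0, z) : W j k d) ∈ H := by
    intro z
    have := H.nsmul_mem h1 z.val
    simpa using this
  have hx : ∀ x : Fin j → ZMod 2, ((x, 0, 0) : W j k d) ∈ H := by
    intro x
    induction x using Pi.single_induction with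
    | zero => exact H.zero_mem
    | add f g hf hg => simpa using H.add_mem hf hg
    | single i m =>
      have := H.nsmul_mem (hj i) m.val
      have e : m.val • (Pi.single i (1 : ZMod 2) : Fin j → ZMod 2) = Pi.single i m := by
        rw [← Pi.single_smul']; simp
      simpa [e] using this
  have hy : ∀ y : Fin k → ZMod 2, ((0, y, 0) : W j k d) ∈ H := by
    intro y
    induction y using Pi.single_induction with
    | zero => exact H.zero_mem
    | add f g hf hg => simpa using H.add_mem hf hg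
    | single i m =>
      have := H.nsmul_mem (hk i) m.val
      have e : m.val • (Pi.single i (1 : ZMod 2) : Fin k → ZMod 2) = Pi.single i m := by
        rw [← Pi.single_smul']; simp
      simpa [e] using this
  rw [eq_top_iff]
  rintro ⟨x, y, z⟩ -
  simpa using H.add_mem (H.add_mem (hx x) (hy y)) (hz z)

lemma addOrderOf_two (d : ℕ) : addOrderOf (2 : ZMod (2 * d)) = d := by
  have h := ZMod.addOrderOf_coe' (2 * d) (a := 2) (by norm_num)
  have e : ((2 : ℕ) : ZMod (2 * d)) = 2 := by norm_cast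
  rw [e] at h
  rw [h, Nat.gcd_mul_right_left]
  omega

lemma isLeast_gens (j k d : ℕ) [NeZero (2 * d)] :
    IsLeast (addOrderOf '' ((gens j k d : Finset (W j k d)) : Set (W j k d))) d := by
  constructor
  · refine ⟨(0, 0, 2), by simp [gens], ?_⟩
    simp [Prod.addOrderOf, addOrderOf_two d]
  · rintro _ ⟨s, hs, rfl⟩
    have hpos : 0 < addOrderOf s := addOrderOf_pos s
    have hdvd : addOrderOf s.2.2 ∣ addOrderOf s :=
      (addOrderOf_snd_dvd_addOrderOf (x := s.2)).trans (addOrderOf_snd_dvd_addOrderOf (x := s))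
    have hcase : s.2.2 = 2 ∨ s.2.2 = 1 := by
      simp only [gens, coe_union, coe_insert, coe_singleton, coe_image, coe_univ, Set.image_univ,
        Set.mem_union, Set.mem_insert_iff, Set.mem_singleton_iff, Set.mem_range] at hs
      rcases hs with ((rfl | rfl) | ⟨i, rfl⟩) | ⟨i, rfl⟩ <;> simp
    have hle := Nat.le_of_dvd hpos hdvd
    rcases hcase with h | h
    · rw [h, addOrderOf_two d] at hle; exact hle
    · rw [h, ZMod.addOrderOf_one] at hle; omega

/-- The set `A = C_2^j × 0 × C_(2d)`. -/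
def body (j k d : ℕ) [NeZero (2 * d)] : Finset (W j k d) :=
  (univ : Finset (Fin j → ZMod 2)) ×ˢ (({0} : Finset (Fin k → ZMod 2)) ×ˢ
    (univ : Finset (ZMod (2 * d))))

lemma mem_body {j k d : ℕ} [NeZero (2 * d)] (g : W j k d) : g ∈ body j k d ↔ g.2.1 = 0 := by
  simp only [body, Finset.mem_product, mem_univ, mem_singleton, true_and, and_true]

lemma card_body (j k d : ℕ) [NeZero (2 * d)] : (body j k d).card = 2 ^ j * (2 * d) := by
  simp [body, Finset.card_product, ZMod.card]

lemma boundary_le (j k d : ℕ) [NeZero (2 * d)] :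
    ((body j k d ×ˢ gens j k d).filter (fun p => p.1 + p.2 ∉ body j k d)).card
      ≤ k * (body j k d).card := by
  have hsub : (body j k d ×ˢ gens j k d).filter (fun p => p.1 + p.2 ∉ body j k d) ⊆
      body j k d ×ˢ (univ.image fun i : Fin k => ((0, Pi.single i 1, 1) : W j k d)) := by
    rintro ⟨a, s⟩ hp
    rw [Finset.mem_filter, Finset.mem_product] at hp
    obtain ⟨⟨ha, hs⟩, hn⟩ := hp
    rw [Finset.mem_product]
    refine ⟨ha, ?_⟩
    rw [mem_body] at ha hn
    simp only [gens, mem_union, mem_insert, mem_singleton] at hs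
    rcases hs with (hs | hs) | hs
    · exfalso; apply hn
      rcases hs with rfl | rfl <;> simpa using ha
    · exfalso; apply hn
      obtain ⟨i, -, rfl⟩ := Finset.mem_image.mp hs
      simpa using ha
    · exact hs
  refine (Finset.card_le_card hsub).trans ?_
  rw [Finset.card_product, mul_comm]
  refine Nat.mul_le_mul_right _ (Finset.card_image_le.trans ?_)
  simp

theorem result (γ : ℝ) (hγ0 : 0 < γ) (hγ1 : γ ≤ 1) (d : ℕ) (hd : 3 ≤ d) :
    ∃ (G : Type) (_ : AddCommGroup G) (_ : Fintype G) (_ : DecidableEq G) (S A : Finset G),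
      AddSubgroup.closure (S : Set G) = ⊤ ∧
      IsLeast (addOrderOf '' (S : Set G)) d ∧
      A.Nonempty ∧
      (((A ×ˢ S).filter (fun p => p.1 + p.2 ∉ A)).card : ℝ)
        ≤ (1 - γ) * (AddGroup.rank G : ℝ) * (A.card : ℝ) ∧
      (A.card : ℝ) < (4 : ℝ) ^ ((1 - 1 / (d : ℝ)) * γ * (AddGroup.rank G : ℝ)) := by
  have : NeZero (2 * d) := ⟨by omega⟩
  -- the rank `N`, and `t = ⌈γ N⌉`
  set N : ℕ := ⌈3 * ((d : ℝ) + 1) / γ⌉₊ with hN
  have hdR : (3 : ℝ) ≤ d := by exact_mod_cast hd
  have hN1 : 3 * ((d : ℝ) + 1) ≤ γ * N := by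
    have h := Nat.le_ceil (3 * ((d : ℝ) + 1) / γ)
    rw [← hN, div_le_iff₀ hγ0] at h
    linarith
  set t : ℕ := ⌈γ * N⌉₊ with ht
  have ht1 : γ * N ≤ t := Nat.le_ceil _
  have ht2 : (t : ℝ) < γ * N + 1 := Nat.ceil_lt_add_one (by positivity)
  have htN : t ≤ N := by
    rw [ht, Nat.ceil_le]
    have : (0 : ℝ) ≤ N := Nat.cast_nonneg _
    nlinarith
  have ht0 : 1 ≤ t := by
    have : (1 : ℝ) ≤ t := by linarith
    exact_mod_cast this
  obtain ⟨j, hj⟩ : ∃ j, t = j + 1 := ⟨t - 1, by omega⟩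
  obtain ⟨k, hk⟩ : ∃ k, N = t + k := ⟨N - t, by omega⟩
  have hjR : (t : ℝ) = j + 1 := by exact_mod_cast hj
  have hkR : (N : ℝ) = t + k := by exact_mod_cast hk
  have hrank : (N : ℝ) ≤ (AddGroup.rank (W j k d) : ℝ) := by
    have := rank_ge j k d
    have h2 : N ≤ AddGroup.rank (W j k d) := by omega
    exact_mod_cast h2
  refine ⟨W j k d, inferInstance, inferInstance, inferInstance, gens j k d, body j k d,
    closure_gens j k d, isLeast_gens j k d, ⟨0, (mem_body _).mpr rfl⟩, ?_, ?_⟩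
  · have h1 : (((body j k d ×ˢ gens j k d).filter
        (fun p => p.1 + p.2 ∉ body j k d)).card : ℝ) ≤ (k : ℝ) * ((body j k d).card : ℝ) := by
      exact_mod_cast boundary_le j k d
    refine h1.trans (mul_le_mul_of_nonneg_right ?_ (Nat.cast_nonneg _))
    have h2 : (1 - γ) * (N : ℝ) ≤ (1 - γ) * (AddGroup.rank (W j k d) : ℝ) :=
      mul_le_mul_of_nonneg_left hrank (by linarith)
    nlinarith
  · rw [card_body]
    have h1 : 2 ^ j * (2 * d) < 2 ^ (j + 1 + d) := by
      have : d < 2 ^ d := Nat.lt_two_pow_self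
      rw [pow_add, pow_add, mul_assoc]
      have hp : 0 < 2 ^ j := by positivity
      nlinarith
    have h1R : ((2 ^ j * (2 * d) : ℕ) : ℝ) < (2 : ℝ) ^ (((j + 1 + d : ℕ) : ℝ)) := by
      rw [Real.rpow_natCast]; exact_mod_cast h1
    refine h1R.trans_le ?_
    have h4 : (4 : ℝ) = (2 : ℝ) ^ (2 : ℝ) := by norm_num
    rw [h4, ← Real.rpow_mul (by norm_num)]
    refine Real.rpow_le_rpow_of_exponent_le (by norm_num) ?_
    have hinv : 1 / (d : ℝ) ≤ 1 / 3 := one_div_le_one_div_of_le (by norm_num) hdR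
    have h5 : γ * N ≤ γ * (AddGroup.rank (W j k d) : ℝ) :=
      mul_le_mul_of_nonneg_left hrank hγ0.le
    have h6 : (2 / 3 : ℝ) * (γ * N) ≤
        (1 - 1 / (d : ℝ)) * (γ * (AddGroup.rank (W j k d) : ℝ)) :=
      mul_le_mul (by linarith) h5 (by positivity) (by linarith)
    push_cast
    nlinarith

end Pool.Agent.Lib.MP_039f74_co.Variants.Disproof
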